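import Pool.Agent.BBM.Defs

/-!
# Change of the base points
-/

set_option autoImplicit false

noncomputable section

namespace Pool.Agent.BBM

universe u v w

variable {S : Type} [Fintype S] [DecidableEq S] {P : S → Type u} {G : S → Type v}
  {m m' : S → ℕ} {R : Type w} [Field R] {rat : ∀ m : S → ℕ, Submodule R (Pts P m →₀ R)}

omit [Fintype S] in
private lemma cycBase_congr (J : Finset (Idx m)) (x y y' : Pts P m) (h : ∀ j ∈ J, y j = y' j) :
    cyc R J x y = cyc R J x y' := by
  unfold cyc
  apply Finset.sum_congr rfl
  intro T hT
  rw [Finset.mem_powerset] at hT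
  congr 1
  funext i
  by_cases hi : i ∈ T
  · rw [if_pos hi, if_pos hi, h i (hT hi)]
  · rw [if_neg hi, if_neg hi]

omit [Fintype S] in
private lemma cycBase_insert (J : Finset (Idx m)) {i : Idx m} (hi : i ∉ J) (x y : Pts P m) :
    cyc R (insert i J) x y = cyc R J x y - cyc R J (Function.update x i (y i)) y := by
  unfold cyc
  rw [Finset.sum_powerset_insert hi, sub_eq_add_neg, ← Finset.sum_neg_distrib]
  congr 1
  apply Finset.sum_congr rfl
  intro T hT
  rw [Finset.mem_powerset] at hT
  have hiT : i ∉ T := fun h => hi (hT h)
  rw [← Finsupp.single_neg, Finset.card_insert_of_notMem hiT, pow_succ, mul_neg_one]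
  congr 1
  funext l
  by_cases hl : l = i
  · subst hl
    rw [if_pos (Finset.mem_insert_self _ _), if_neg hiT, Function.update_self]
  · by_cases hlT : l ∈ T
    · rw [if_pos (Finset.mem_insert_of_mem hlT), if_pos hlT]
    · rw [if_neg, if_neg hlT, Function.update_of_ne hl]
      rw [Finset.mem_insert]
      rintro (h | h)
      · exact hl h
      · exact hlT h

theorem cyc_base (n : S → ℕ) (hn : ∀ s, 1 ≤ n s) (J : Finset (Idx m)) (w w' v v' : Pts P m)
    (h : ∀ j ∈ J, w j = v j ∧ w' j = v' j) :
    cyc R J w w' - cyc R J v v' ∈ Fil rat n m (∑ j ∈ J, n j.1 + 1) := by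
  have key : ∀ T : Finset (Idx m), Disjoint T J →
      cyc R J w w' - cyc R J (fun i => if i ∈ T then v i else w i) w' ∈
        Fil rat n m (∑ j ∈ J, n j.1 + 1) := by
    intro T
    induction T using Finset.induction_on with
    | empty =>
      intro _
      have : (fun i : Idx m => if i ∈ (∅ : Finset (Idx m)) then v i else w i) = w := by
        funext i
        simp
      rw [this, sub_self]
      exact Submodule.zero_mem _
    | insert i T hiT ih =>
      intro hdisj
      rw [Finset.disjoint_insert_left] at hdisj
      obtain ⟨hiJ, hTJ⟩ := hdisj
      have h1 := ih hTJ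
      have hstep : cyc R J (fun l => if l ∈ T then v l else w l) w' -
          cyc R J (fun l => if l ∈ insert i T then v l else w l) w' =
          cyc R (insert i J) (fun l => if l ∈ T then v l else w l)
            (Function.update w' i (v i)) := by
        rw [cycBase_insert J hiJ]
        have e1 : ∀ x : Pts P m, cyc R J x (Function.update w' i (v i)) = cyc R J x w' := by
          intro x
          apply cycBase_congr
          intro j hj
          rw [Function.update_of_ne]
          rintro rfl
          exact hiJ hj
        rw [e1, e1]
        congr 2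
        funext l
        by_cases hl : l = i
        · subst hl
          rw [if_pos (Finset.mem_insert_self _ _), Function.update_self, Function.update_self]
        · rw [Function.update_of_ne hl]
          by_cases hlT : l ∈ T
          · rw [if_pos (Finset.mem_insert_of_mem hlT), if_pos hlT]
          · rw [if_neg, if_neg hlT]
            rw [Finset.mem_insert]
            rintro (h | h)
            · exact hl h
            · exact hlT h
      have h2 : cyc R (insert i J) (fun l => if l ∈ T then v l else w l)
          (Function.update w' i (v i)) ∈ Fil rat n m (∑ j ∈ J, n j.1 + 1) := by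
        apply Submodule.mem_sup_left
        apply Submodule.subset_span
        refine ⟨insert i J, _, _, ?_, rfl⟩
        rw [Finset.sum_insert hiJ]
        have := hn i.1
        omega
      rw [← hstep] at h2
      have h3 := Submodule.add_mem _ h1 h2
      rwa [sub_add_sub_cancel] at h3
  have h4 := key Jᶜ disjoint_compl_left
  have h5 : (fun i => if i ∈ Jᶜ then v i else w i) = v := by
    funext i
    by_cases hi : i ∈ J
    · rw [if_neg (by rw [Finset.mem_compl]; exact fun h => h hi), (h i hi).1]
    · rw [if_pos (Finset.mem_compl.2 hi)]
  rw [h5, cycBase_congr J v w' v' (fun j hj => (h j hj).2)] at h4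
  exact h4

end Pool.Agent.BBM
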