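import Pool.Agent.BBM.Filt

/-!
# The push-forward of a product of differences
-/

set_option autoImplicit false

noncomputable section

namespace Pool.Agent.BBM

universe u v w

variable {S : Type} [Fintype S] [DecidableEq S] {P : S → Type u} {G : S → Type v}
  {m m' : S → ℕ} {R : Type w} [Field R] {rat : ∀ m : S → ℕ, Submodule R (Pts P m →₀ R)}

/-- alternating sums over an interval of sets -/
private theorem mapCyc_alt {α : Type} [DecidableEq α] (A I : Finset α) (h : A ⊆ I) :
    ∑ T ∈ I.powerset, (if A ⊆ T then (-1 : R) ^ T.card else 0)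
      = if A = I then (-1) ^ I.card else 0 := by
  split_ifs with hAI
  · subst hAI
    rw [Finset.sum_eq_single A]
    · rw [if_pos (Finset.Subset.refl A)]
    · intro T hT hne
      rw [if_neg]
      intro h2
      exact hne (Finset.Subset.antisymm (Finset.mem_powerset.1 hT) h2)
    · intro h2
      exact absurd (Finset.mem_powerset.2 (Finset.Subset.refl A)) h2
  · obtain ⟨i, hi, hiA⟩ : ∃ i ∈ I, i ∉ A := by
      by_contra hcon
      push Not at hcon
      exact hAI (Finset.Subset.antisymm h hcon)
    have hI : I = insert i (I.erase i) := (Finset.insert_erase hi).symm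
    rw [hI, Finset.sum_powerset_insert (Finset.notMem_erase i I), ← Finset.sum_add_distrib]
    refine Finset.sum_eq_zero fun T hT => ?_
    have hiT : i ∉ T := fun h2 => by
      have := Finset.mem_powerset.1 hT h2
      exact Finset.notMem_erase i I this
    have e : A ⊆ insert i T ↔ A ⊆ T := by
      constructor
      · intro h2 a ha
        rcases Finset.mem_insert.1 (h2 ha) with h3 | h3
        · exact absurd (h3 ▸ ha) hiA
        · exact h3
      · intro h2
        exact h2.trans (Finset.subset_insert i T)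
    rw [Finset.card_insert_of_notMem hiT]
    simp only [e]
    split_ifs
    · rw [pow_succ]
      ring
    · simp

/-- one of the points of the cube -/
private def mapCyc_e (x y : Pts P m) (T : Finset (Idx m)) : Pts P m →₀ R :=
  Finsupp.single (fun i => if i ∈ T then y i else x i) 1

private theorem mapCyc_cyc (I : Finset (Idx m)) (x y : Pts P m) :
    cyc R I x y = ∑ T ∈ I.powerset, ((-1 : R) ^ T.card) • mapCyc_e x y T := by
  unfold cyc mapCyc_e
  refine Finset.sum_congr rfl fun T _ => ?_
  rw [Finsupp.smul_single, smul_eq_mul, mul_one]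

private theorem mapCyc_moebius (T : Finset (Idx m)) (x y : Pts P m) :
    mapCyc_e x y T = ∑ K ∈ T.powerset, ((-1 : R) ^ K.card) • cyc R K x y := by
  have h1 : ∀ K ∈ T.powerset, ((-1 : R) ^ K.card) • cyc R K x y
      = ∑ T' ∈ T.powerset, ((if T' ⊆ K then (-1 : R) ^ K.card else 0) * (-1) ^ T'.card) •
        mapCyc_e x y T' := by
    intro K hK
    rw [mapCyc_cyc, Finset.smul_sum]
    have hK' := Finset.mem_powerset.1 hK
    rw [← Finset.sum_subset (Finset.powerset_mono.2 hK')]
    · refine Finset.sum_congr rfl fun T' hT => ?_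
      rw [if_pos (Finset.mem_powerset.1 hT), smul_smul]
    · intro T' _ hT
      rw [if_neg (fun h => hT (Finset.mem_powerset.2 h)), zero_mul, zero_smul]
  rw [Finset.sum_congr rfl h1, Finset.sum_comm]
  have h2 : ∀ T' ∈ T.powerset, ∑ K ∈ T.powerset,
      ((if T' ⊆ K then (-1 : R) ^ K.card else 0) * (-1) ^ T'.card) • (mapCyc_e x y T' :
        Pts P m →₀ R)
      = ((if T' = T then (-1 : R) ^ T.card else 0) * (-1) ^ T'.card) • mapCyc_e x y T' := by
    intro T' hT
    rw [← Finset.sum_smul, ← Finset.sum_mul, mapCyc_alt T' T (Finset.mem_powerset.1 hT)]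
  rw [Finset.sum_congr rfl h2, Finset.sum_eq_single T]
  · rw [if_pos rfl, ← pow_add, ← two_mul, pow_mul, neg_one_sq, one_pow, one_smul]
  · intro T' _ hT
    rw [if_neg hT, zero_mul, zero_smul]
  · intro h
    exact absurd (Finset.mem_powerset.2 (Finset.Subset.refl T)) h

open Classical in
/-- the components which come from `T` -/
private def mapCyc_T (f : Mor P G m m') (T : Finset (Idx m)) : Finset (Idx m') :=
  Finset.univ.filter fun j => ∃ i : Fin (m j.1), ⟨j.1, i⟩ ∈ T ∧ (f j).src = some i

private theorem mapCyc_mem_T (f : Mor P G m m') (T : Finset (Idx m)) (j : Idx m') :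
    j ∈ mapCyc_T f T ↔ ∃ i : Fin (m j.1), ⟨j.1, i⟩ ∈ T ∧ (f j).src = some i := by
  unfold mapCyc_T
  simp

private theorem mapCyc_app (act : ∀ s, G s → P s → P s) (f : Mor P G m m') (x y : Pts P m)
    (T : Finset (Idx m)) :
    f.app act (fun i => if i ∈ T then y i else x i)
      = fun j => if j ∈ mapCyc_T f T then f.app act y j else f.app act x j := by
  funext j
  by_cases h : j ∈ mapCyc_T f T
  · rw [if_pos h]
    rw [mapCyc_mem_T] at h
    obtain ⟨i, hi, hji⟩ := h
    unfold Mor.app
    cases hf : f j with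
    | const p => rfl
    | fac i' g =>
      rw [hf] at hji
      have e : i' = i := by simpa [Comp.src] using hji
      subst e
      simp only [Comp.app, if_pos hi]
  · rw [if_neg h]
    rw [mapCyc_mem_T] at h
    unfold Mor.app
    cases hf : f j with
    | const p => rfl
    | fac i' g =>
      have hi : (⟨j.1, i'⟩ : Idx m) ∉ T := fun hi => h ⟨i', hi, by rw [hf]; rfl⟩
      simp only [Comp.app, if_neg hi]

private theorem mapCyc_map_e (act : ∀ s, G s → P s → P s) (f : Mor P G m m') (x y : Pts P m)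
    (T : Finset (Idx m)) : (mapCyc_e x y T : Pts P m →₀ R).mapDomain (f.app act) =
      mapCyc_e (f.app act x) (f.app act y) (mapCyc_T f T) := by
  unfold mapCyc_e
  rw [Finsupp.mapDomain_single, mapCyc_app]

open Classical in
private theorem mapCyc_inner (f : Mor P G m m') (I : Finset (Idx m)) (K : Finset (Idx m')) :
    ∑ T ∈ I.powerset, (if K ⊆ mapCyc_T f T then (-1 : R) ^ T.card else 0)
      = if Onto f K I then (-1) ^ I.card else 0 := by
  by_cases hK : ∀ j ∈ K, ∃ i : Fin (m j.1), ⟨j.1, i⟩ ∈ I ∧ (f j).src = some i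
  · -- the set of sources
    let A : Finset (Idx m) := I.filter fun i =>
      ∃ j : Fin (m' i.1), ⟨i.1, j⟩ ∈ K ∧ (f ⟨i.1, j⟩).src = some i.2
    have hA : A ⊆ I := Finset.filter_subset _ _
    have e1 : ∀ T ∈ I.powerset, (K ⊆ mapCyc_T f T ↔ A ⊆ T) := by
      intro T hT
      constructor
      · rintro h ⟨s, i⟩ hi
        obtain ⟨_, j, hj, hji⟩ := Finset.mem_filter.1 hi
        obtain ⟨i', hi', hji'⟩ := (mapCyc_mem_T f T ⟨s, j⟩).1 (h hj)
        dsimp only at hji hji' hi'
        rw [hji] at hji'
        have e : i = i' := by simpa using hji'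
        rwa [e]
      · rintro h ⟨s, j⟩ hj
        obtain ⟨i, hi, hji⟩ := hK ⟨s, j⟩ hj
        exact (mapCyc_mem_T f T ⟨s, j⟩).2 ⟨i, h (Finset.mem_filter.2 ⟨hi, j, hj, hji⟩), hji⟩
    have e2 : Onto f K I ↔ A = I := by
      constructor
      · intro h
        refine Finset.Subset.antisymm hA fun i hi => ?_
        exact Finset.mem_filter.2 ⟨hi, h.2 i hi⟩
      · intro h
        refine ⟨hK, fun i hi => ?_⟩
        rw [← h] at hi
        exact (Finset.mem_filter.1 hi).2
    rw [Finset.sum_congr rfl fun T hT => by rw [if_congr (e1 T hT) rfl rfl]]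
    rw [mapCyc_alt A I hA, if_congr e2 rfl rfl]
  · rw [if_neg (fun h => hK h.1)]
    refine Finset.sum_eq_zero fun T hT => ?_
    rw [if_neg]
    intro h
    apply hK
    intro j hj
    obtain ⟨i, hi, hji⟩ := (mapCyc_mem_T f T j).1 (h hj)
    exact ⟨i, Finset.mem_powerset.1 hT hi, hji⟩

open Classical in
theorem map_cyc (act : ∀ s, G s → P s → P s) (f : Mor P G m m') (I : Finset (Idx m))
    (x y : Pts P m) :
    (cyc R I x y).mapDomain (f.app act) = ∑ K : Finset (Idx m') with Onto f K I,
      ((-1 : R) ^ (K.card + I.card)) • cyc R K (f.app act x) (f.app act y) := by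
  have h1 : (cyc R I x y).mapDomain (f.app act) = ∑ T ∈ I.powerset, ((-1 : R) ^ T.card) •
      mapCyc_e (f.app act x) (f.app act y) (mapCyc_T f T) := by
    rw [mapCyc_cyc, Finsupp.mapDomain_finsetSum]
    refine Finset.sum_congr rfl fun T _ => ?_
    rw [Finsupp.mapDomain_smul, mapCyc_map_e]
  have h2 : ∀ T ∈ I.powerset, ((-1 : R) ^ T.card) •
      mapCyc_e (f.app act x) (f.app act y) (mapCyc_T f T)
      = ∑ K : Finset (Idx m'), ((if K ⊆ mapCyc_T f T then (-1 : R) ^ T.card else 0)
        * (-1) ^ K.card) • cyc R K (f.app act x) (f.app act y) := by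
    intro T _
    rw [mapCyc_moebius, Finset.smul_sum]
    rw [← Finset.sum_subset (Finset.subset_univ (mapCyc_T f T).powerset)]
    · refine Finset.sum_congr rfl fun K hK => ?_
      rw [if_pos (Finset.mem_powerset.1 hK), smul_smul]
    · intro K _ hK
      rw [if_neg (fun h => hK (Finset.mem_powerset.2 h)), zero_mul, zero_smul]
  rw [h1, Finset.sum_congr rfl h2, Finset.sum_comm, Finset.sum_filter]
  refine Finset.sum_congr rfl fun K _ => ?_
  rw [← Finset.sum_smul, ← Finset.sum_mul, mapCyc_inner]
  split_ifs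
  · rw [pow_add, mul_comm]
  · rw [zero_mul, zero_smul]

theorem sum_le_of_onto (n : S → ℕ) {f : Mor P G m m'} {K : Finset (Idx m')}
    {I : Finset (Idx m)} (h : Onto f K I) : ∑ i ∈ I, n i.1 ≤ ∑ j ∈ K, n j.1 := by
  choose j hjK hjs using h.2
  let src' : Idx m' → Option (Idx m) := fun j => (f j).src.map fun i => ⟨j.1, i⟩
  let g : {i // i ∈ I} → Idx m' := fun i => ⟨i.1.1, j i.1 i.2⟩
  have hg : ∀ i : {i // i ∈ I}, src' (g i) = some i.1 := by
    intro i
    change ((f ⟨i.1.1, j i.1 i.2⟩).src.map fun i' => (⟨i.1.1, i'⟩ : Idx m)) = some i.1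
    rw [hjs i.1 i.2]
    rfl
  have hinj : Function.Injective g := by
    intro a b hab
    have h1 := hg a
    rw [hab, hg b] at h1
    exact Subtype.ext (Option.some_injective _ h1).symm
  have h1 : ∑ i ∈ I, n i.1 = ∑ i ∈ I.attach, n (g i).1 := (Finset.sum_attach I _).symm
  have h2 : ∑ i ∈ I.attach, n (g i).1 = ∑ k ∈ I.attach.image g, n k.1 := by
    rw [Finset.sum_image fun a _ b _ hab => hinj hab]
  rw [h1, h2]
  refine Finset.sum_le_sum_of_subset fun k hk => ?_
  obtain ⟨i, _, rfl⟩ := Finset.mem_image.1 hk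
  exact hjK i.1 i.2

theorem Fil_map (act : ∀ s, G s → P s → P s) (n : S → ℕ) (ν : ℕ) (f : Mor P G m m')
    (hrat : (rat m).map (Finsupp.lmapDomain R R (f.app act)) ≤ rat m') :
    (Fil rat n m ν).map (Finsupp.lmapDomain R R (f.app act)) ≤ Fil rat n m' ν := by
  classical
  unfold Fil
  rw [Submodule.map_sup]
  refine sup_le ?_ (hrat.trans le_sup_right)
  rw [Submodule.map_span, Submodule.span_le]
  rintro _ ⟨_, ⟨I, x, y, hν, rfl⟩, rfl⟩
  refine Submodule.mem_sup_left ?_
  rw [Finsupp.lmapDomain_apply, map_cyc]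
  refine Submodule.sum_mem _ fun K hK => Submodule.smul_mem _ _ (Submodule.subset_span ?_)
  have hK' := (Finset.mem_filter.1 hK).2
  exact ⟨K, f.app act x, f.app act y, hν.trans (sum_le_of_onto n hK'), rfl⟩

end Pool.Agent.BBM
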