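import Pool.Agent.BBM.Filt
import Pool.Agent.BBM.MapCyc
import Pool.Agent.BBM.CycBase

/-!
# The second step of the filtration
-/

set_option autoImplicit false

noncomputable section

namespace Pool.Agent.BBM

universe u v w

variable {S : Type} [Fintype S] [DecidableEq S] {P : S → Type u} {G : S → Type v}
  {m m' : S → ℕ} {R : Type w} [Field R] {rat : ∀ m : S → ℕ, Submodule R (Pts P m →₀ R)}

/-- keep the factor `i` -/
private def keep (e : ∀ s, G s) (o : ∀ s, P s) (i : Idx m) : Mor P G m m :=
  fun j => if j = i then Comp.fac j.2 (e j.1) else Comp.const (o j.1)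

omit [Fintype S] in
private lemma keep_app {act : ∀ s, G s → P s → P s} {e : ∀ s, G s}
    (he : ∀ s p, act s (e s) p = p) (o : ∀ s, P s) (i : Idx m) (x : Pts P m) (j : Idx m) :
    (keep e o i).app act x j = if j = i then x j else o j.1 := by
  by_cases h : j = i
  · simp only [keep, Mor.app, if_pos h, Comp.app, he]
  · simp only [keep, Mor.app, if_neg h, Comp.app]

omit [Fintype S] in
private lemma cyc_singleton (i : Idx m) (x y : Pts P m) :
    cyc R {i} x y = Finsupp.single x 1 -
      Finsupp.single (fun j => if j = i then y j else x j) 1 := by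
  unfold cyc
  have h : (({i} : Finset (Idx m))).powerset = {∅, {i}} := by
    ext T
    simp [Finset.subset_singleton_iff]
  rw [h, Finset.sum_pair (Finset.singleton_ne_empty i).symm]
  simp [sub_eq_add_neg, ← Finsupp.single_neg]

/-- to the factor `i` -/
private def toF (e : ∀ s, G s) (o : ∀ s, P s) (i : Idx m) :
    Mor P G m (Pi.single i.1 1 : S → ℕ) :=
  fun j => if h : j.1 = i.1 then Comp.fac (Fin.cast (congrArg m h).symm i.2) (e j.1)
    else Comp.const (o j.1)

/-- from the factor `i` -/
private def ofF (e : ∀ s, G s) (o : ∀ s, P s) (i : Idx m) :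
    Mor P G (Pi.single i.1 1 : S → ℕ) m :=
  fun j => if h : j = i then Comp.fac ⟨0, by rw [h]; simp⟩ (e j.1) else Comp.const (o j.1)

omit [Fintype S] in
private lemma keep_eq {act : ∀ s, G s → P s → P s} {e : ∀ s, G s}
    (he : ∀ s p, act s (e s) p = p) (o : ∀ s, P s) (i : Idx m) (x : Pts P m) :
    (keep e o i).app act x = (ofF e o i).app act ((toF e o i).app act x) := by
  funext j
  rw [keep_app he]
  by_cases h : j = i
  · subst h
    rw [if_pos rfl]
    simp only [Mor.app, ofF, toF, dif_pos, Comp.app, he]
    rfl
  · rw [if_neg h]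
    simp only [Mor.app, ofF, dif_neg h, Comp.app]

private lemma sum_single (n : S → ℕ) (s₀ : S) (h : n s₀ = 1) :
    ∑ s, n s * (Pi.single s₀ 1 : S → ℕ) s = 1 := by
  rw [Finset.sum_eq_single s₀]
  · rw [Pi.single_eq_same, h]
  · intro s _ hs
    rw [Pi.single_eq_of_ne hs, mul_zero]
  · intro h
    exact absurd (Finset.mem_univ _) h

/-- the sum of the projections to the curves -/
private def proj (act : ∀ s, G s → P s → P s) (e : ∀ s, G s) (o : ∀ s, P s) (n : S → ℕ) :
    (Pts P m →₀ R) →ₗ[R] (Pts P m →₀ R) :=
  ∑ i : Idx m with n i.1 = 1, Finsupp.lmapDomain R R ((keep e o i).app act)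

private lemma proj_apply (act : ∀ s, G s → P s → P s) (e : ∀ s, G s) (o : ∀ s, P s) (n : S → ℕ)
    (z : Pts P m →₀ R) : proj act e o n z =
      ∑ i : Idx m with n i.1 = 1, z.mapDomain ((keep e o i).app act) := by
  unfold proj
  rw [LinearMap.sum_apply]
  rfl

private lemma sub_proj_mem {act : ∀ s, G s → P s → P s} {e : ∀ s, G s}
    (he : ∀ s p, act s (e s) p = p) (o : ∀ s, P s) (n : S → ℕ) (hn : ∀ s, 1 ≤ n s)
    (hrat : ∀ (m m' : S → ℕ) (f : Mor P G m m'),
      (rat m).map (Finsupp.lmapDomain R R (f.app act)) ≤ rat m') {z : Pts P m →₀ R}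
    (hz : z ∈ Fil rat n m 1) : z - proj act e o n z ∈ Fil rat n m 2 := by
  have hle : Fil rat n m 1 ≤ (Fil rat n m 2).comap (LinearMap.id - proj act e o n) := by
    unfold Fil
    refine sup_le (Submodule.span_le.2 ?_) ?_
    · rintro _ ⟨I, x, y, hI, rfl⟩
      rw [SetLike.mem_coe, Submodule.mem_comap, LinearMap.sub_apply, LinearMap.id_apply]
      change cyc R I x y - proj act e o n (cyc R I x y) ∈ Fil rat n m 2
      by_cases h2 : 2 ≤ ∑ i ∈ I, n i.1
      · refine sub_mem (cyc_mem n 2 h2) ?_
        rw [proj_apply]
        refine sum_mem fun i _ => ?_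
        exact Fil_map act n 2 (keep e o i) (hrat m m _) ⟨_, cyc_mem n 2 h2, rfl⟩
      · have h1 : ∑ i ∈ I, n i.1 = 1 := by omega
        obtain ⟨i₀, hi₀⟩ : I.Nonempty := by
          by_contra hcon
          rw [Finset.not_nonempty_iff_eq_empty] at hcon
          rw [hcon] at h1
          simp at h1
        have hn₀ : n i₀.1 = 1 := by
          have h3 := Finset.single_le_sum (f := fun i : Idx m => n i.1)
            (fun _ _ => Nat.zero_le _) hi₀
          have h4 := hn i₀.1
          omega
        have hI₀ : I = {i₀} := by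
          rw [Finset.eq_singleton_iff_unique_mem]
          refine ⟨hi₀, fun i hi => ?_⟩
          by_contra hne
          have h3 : ∑ j ∈ ({i₀, i} : Finset (Idx m)), n j.1 ≤ ∑ j ∈ I, n j.1 :=
            Finset.sum_le_sum_of_subset (by
              intro j hj
              rw [Finset.mem_insert, Finset.mem_singleton] at hj
              rcases hj with rfl | rfl
              · exact hi₀
              · exact hi)
          rw [Finset.sum_pair (Ne.symm hne)] at h3
          have h4 := hn i₀.1
          have h5 := hn i.1
          omega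
        subst hI₀
        have hproj : proj act e o n (cyc R {i₀} x y) =
            cyc R {i₀} ((keep e o i₀).app act x) ((keep e o i₀).app act y) := by
          rw [proj_apply, Finset.sum_eq_single i₀]
          · rw [cyc_singleton, cyc_singleton, Finsupp.mapDomain_sub, Finsupp.mapDomain_single,
              Finsupp.mapDomain_single]
            congr 2
            funext j
            rw [keep_app he, keep_app he, keep_app he]
            by_cases hj : j = i₀
            · simp [hj]
            · simp [hj]
          · intro i _ hi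
            rw [cyc_singleton, Finsupp.mapDomain_sub, Finsupp.mapDomain_single,
              Finsupp.mapDomain_single, sub_eq_zero]
            congr 1
            funext j
            rw [keep_app he, keep_app he]
            by_cases hj : j = i
            · rw [if_pos hj, if_pos hj, if_neg (by rw [hj]; exact hi)]
            · rw [if_neg hj, if_neg hj]
          · intro h
            exact absurd (Finset.mem_filter.2 ⟨Finset.mem_univ i₀, hn₀⟩) h
        rw [hproj]
        have h3 := cyc_base (rat := rat) (R := R) n hn {i₀} x y ((keep e o i₀).app act x)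
          ((keep e o i₀).app act y) (by
            intro j hj
            rw [Finset.mem_singleton] at hj
            rw [keep_app he, keep_app he, if_pos hj, if_pos hj]
            exact ⟨rfl, rfl⟩)
        rw [Finset.sum_singleton, hn₀] at h3
        exact h3
    · intro z hz
      rw [Submodule.mem_comap, LinearMap.sub_apply, LinearMap.id_apply]
      change z - proj act e o n z ∈ Fil rat n m 2
      refine sub_mem (rat_le_Fil n 2 hz) ?_
      rw [proj_apply]
      refine sum_mem fun i _ => ?_
      exact rat_le_Fil n 2 (hrat m m (keep e o i) ⟨z, hz, rfl⟩)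
  exact hle hz

/-- `F²` is the part which is killed by all morphisms to curves -/
theorem Fil_two {act : ∀ s, G s → P s → P s} {e : ∀ s, G s} (he : ∀ s p, act s (e s) p = p)
    [∀ s, Nonempty (P s)] (n : S → ℕ) (hn : ∀ s, 1 ≤ n s)
    (hrat : ∀ (m m' : S → ℕ) (f : Mor P G m m'),
      (rat m).map (Finsupp.lmapDomain R R (f.app act)) ≤ rat m')
    (hdeg : ∀ (m : S → ℕ), ∀ z ∈ rat m, (z.sum fun _ c => c) = 0) (z : Pts P m →₀ R) :
    z ∈ Fil rat n m 2 ↔ (z.sum fun _ c => c) = 0 ∧
      ∀ m' : S → ℕ, ∑ s, n s * m' s = 1 → ∀ f : Mor P G m m',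
        z.mapDomain (f.app act) ∈ rat m' := by
  constructor
  · intro hz
    refine ⟨(Fil_one n hn (hdeg m) z).1 (Fil_anti n 1 hz), fun m' hm' f => ?_⟩
    have h1 := Fil_map act n 2 f (hrat m m' f) ⟨z, hz, rfl⟩
    have h2 := Fil_top (rat := rat) (m := m') n
    rw [hm'] at h2
    rw [h2] at h1
    exact h1
  · rintro ⟨h0, h1⟩
    set o : ∀ s, P s := fun s => Classical.arbitrary (P s) with ho
    have hz : z ∈ Fil rat n m 1 := (Fil_one n hn (hdeg m) z).2 h0
    have h2 := sub_proj_mem he o n hn hrat hz
    have h3 : proj act e o n z ∈ Fil rat n m 2 := by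
      rw [proj_apply]
      refine sum_mem fun i hi => rat_le_Fil n 2 ?_
      rw [Finset.mem_filter] at hi
      have h4 : (keep e o i).app act = (ofF e o i).app act ∘ (toF e o i).app act := by
        funext x
        exact keep_eq he o i x
      rw [h4, Finsupp.mapDomain_comp]
      exact hrat _ m (ofF e o i) ⟨_, h1 _ (sum_single n i.1 hi.2) (toF e o i), rfl⟩
    have h5 := add_mem h2 h3
    rwa [sub_add_cancel] at h5

end Pool.Agent.BBM
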