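import Pool.Agent.BBM.Defs

/-!
# Morphisms which induce an automorphism of `Y ^ k`
-/

set_option autoImplicit false

noncomputable section

namespace Pool.Agent.BBM

universe u v w

variable {S : Type} [Fintype S] [DecidableEq S] {P : S → Type u} {G : S → Type v}
  {m m' : S → ℕ} {R : Type w} [Field R] {rat : ∀ m : S → ℕ, Submodule R (Pts P m →₀ R)}

private theorem mem_range' {k : S → ℕ} (I : ∀ s, Fin (k s) ↪o Fin (m s)) (s : S) (i : Fin (m s)) :
    (⟨s, i⟩ : Idx m) ∈ range I ↔ ∃ a : Fin (k s), I s a = i := by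
  unfold range
  rw [Finset.mem_image]
  constructor
  · rintro ⟨⟨s', a⟩, -, h⟩
    obtain ⟨h1, h2⟩ := Sigma.mk.inj_iff.1 h
    dsimp only at h1 h2
    subst h1
    exact ⟨a, eq_of_heq h2⟩
  · rintro ⟨a, rfl⟩
    exact ⟨⟨s, a⟩, Finset.mem_univ _, rfl⟩

theorem Induces.unique {f : Mor P G m m'} {k : S → ℕ} {I : ∀ s, Fin (k s) ↪o Fin (m s)}
    {J : ∀ s, Fin (k s) ↪o Fin (m' s)} {τ τ' : ∀ s, Equiv.Perm (Fin (k s))}
    {g g' : ∀ i : Idx k, G i.1} (h : Induces f I J τ g) (h' : Induces f I J τ' g') :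
    τ = τ' ∧ g = g' := by
  constructor
  · funext s
    refine Equiv.ext fun b => ?_
    have h1 := (h ⟨s, b⟩).symm.trans (h' ⟨s, b⟩)
    injection h1 with h2 h3
    exact (I s).injective h2
  · funext b
    have h1 := (h b).symm.trans (h' b)
    injection h1 with h2 h3

/-- a morphism which maps `J` onto `I` induces an automorphism of `Y ^ k` -/
theorem exists_induces (f : Mor P G m m') {k : S → ℕ} (I : ∀ s, Fin (k s) ↪o Fin (m s))
    (J : ∀ s, Fin (k s) ↪o Fin (m' s)) (h : Onto f (range J) (range I)) :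
    ∃ (τ : ∀ s, Equiv.Perm (Fin (k s))) (g : ∀ i : Idx k, G i.1), Induces f I J τ g := by
  have h1 : ∀ b : Idx k, ∃ (i : Fin (k b.1)) (g : G b.1),
      f ⟨b.1, J b.1 b.2⟩ = Comp.fac (I b.1 i) g := by
    intro b
    obtain ⟨i, hi, h2⟩ := h.1 ⟨b.1, J b.1 b.2⟩ ((mem_range' J b.1 _).2 ⟨b.2, rfl⟩)
    obtain ⟨a, rfl⟩ := (mem_range' I b.1 i).1 hi
    rcases hf : f ⟨b.1, J b.1 b.2⟩ with _ | ⟨i', g⟩
    · rw [hf] at h2
      simp [Comp.src] at h2
    · rw [hf] at h2
      simp only [Comp.src, Option.some.injEq] at h2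
      subst h2
      exact ⟨a, g, rfl⟩
  choose t g ht using h1
  let t' : ∀ s : S, Fin (k s) → Fin (k s) := fun s b => t ⟨s, b⟩
  have hsurj : ∀ s : S, Function.Surjective (t' s) := by
    intro s a
    obtain ⟨j, hj, h2⟩ := h.2 ⟨s, I s a⟩ ((mem_range' I s _).2 ⟨a, rfl⟩)
    obtain ⟨b, rfl⟩ := (mem_range' J s j).1 hj
    refine ⟨b, ?_⟩
    have h3 : (f ⟨s, J s b⟩).src = some (I s a) := h2
    rw [ht ⟨s, b⟩] at h3
    simp only [Comp.src, Option.some.injEq] at h3
    exact (I s).injective h3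
  exact ⟨fun s => Equiv.ofBijective (t' s)
    ⟨Finite.injective_iff_surjective.mpr (hsurj s), hsurj s⟩, g, ht⟩

theorem onto_of_induces {f : Mor P G m m'} {k : S → ℕ} {I : ∀ s, Fin (k s) ↪o Fin (m s)}
    {J : ∀ s, Fin (k s) ↪o Fin (m' s)} {τ : ∀ s, Equiv.Perm (Fin (k s))}
    {g : ∀ i : Idx k, G i.1} (h : Induces f I J τ g) : Onto f (range J) (range I) := by
  constructor
  · rintro ⟨s, j⟩ hj
    obtain ⟨b, rfl⟩ := (mem_range' J s j).1 hj
    refine ⟨I s (τ s b), (mem_range' I s _).2 ⟨_, rfl⟩, ?_⟩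
    rw [h ⟨s, b⟩]
    rfl
  · rintro ⟨s, i⟩ hi
    obtain ⟨a, rfl⟩ := (mem_range' I s i).1 hi
    refine ⟨J s ((τ s).symm a), (mem_range' J s _).2 ⟨_, rfl⟩, ?_⟩
    rw [h ⟨s, (τ s).symm a⟩]
    simp only [Comp.src, Equiv.apply_symm_apply]

omit [Fintype S] [DecidableEq S] in
private theorem emb_app_mem {act : ∀ s, G s → P s → P s} {e : ∀ s, G s}
    (he : ∀ s p, act s (e s) p = p) (o : ∀ s, P s) {k : S → ℕ}
    (J : ∀ s, Fin (k s) ↪o Fin (m' s)) (z : Pts P k) (b : Idx k) :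
    (emb e o J).app act z ⟨b.1, J b.1 b.2⟩ = z b := by
  unfold Mor.app emb
  have h : ∃ b', J b.1 b' = J b.1 b.2 := ⟨b.2, rfl⟩
  rw [dif_pos h]
  have hb : h.choose = b.2 := (J b.1).injective h.choose_spec
  rw [hb]
  exact he _ _

omit [Fintype S] [DecidableEq S] in
private theorem emb_app_notMem {act : ∀ s, G s → P s → P s} {e : ∀ s, G s} (o : ∀ s, P s)
    {k : S → ℕ} (J : ∀ s, Fin (k s) ↪o Fin (m' s)) (z : Pts P k) (j : Idx m')
    (hj : ¬ ∃ b, J j.1 b = j.2) : (emb e o J).app act z j = o j.1 := by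
  unfold Mor.app emb
  rw [dif_neg hj]
  rfl

/-- the embedding of the factors -/
private def incl {k : S → ℕ} (J : ∀ s, Fin (k s) ↪o Fin (m' s)) : Idx k ↪ Idx m' where
  toFun i := ⟨i.1, J i.1 i.2⟩
  inj' := by
    rintro ⟨s, a⟩ ⟨s', a'⟩ h
    obtain ⟨h1, h2⟩ := Sigma.mk.inj_iff.1 h
    dsimp only at h1 h2
    subst h1
    rw [(J s).injective (eq_of_heq h2)]

private theorem range_eq {k : S → ℕ} (J : ∀ s, Fin (k s) ↪o Fin (m' s)) :
    range J = Finset.univ.map (incl J) := by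
  rw [Finset.map_eq_image]
  rfl

/-- the product of differences on the factors `J`, with the constant `o` elsewhere -/
theorem cyc_induces {act : ∀ s, G s → P s → P s} {e : ∀ s, G s} (he : ∀ s p, act s (e s) p = p)
    {f : Mor P G m m'} {k : S → ℕ} {I : ∀ s, Fin (k s) ↪o Fin (m s)}
    {J : ∀ s, Fin (k s) ↪o Fin (m' s)} {τ : ∀ s, Equiv.Perm (Fin (k s))}
    {g : ∀ i : Idx k, G i.1} (h : Induces f I J τ g) (o : ∀ s, P s) (x y : Pts P m) :
    ((cyc R Finset.univ (fun i : Idx k => x ⟨i.1, I i.1 i.2⟩)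
      (fun i : Idx k => y ⟨i.1, I i.1 i.2⟩)).mapDomain (symAct act τ g)).mapDomain
        ((emb e o J).app act) =
      cyc R (range J) (fun j => if j ∈ range J then f.app act x j else o j.1)
        (fun j => if j ∈ range J then f.app act y j else o j.1) := by
  classical
  let c : Idx k ≃ Idx k := Equiv.sigmaCongrRight τ
  have hc : ∀ b : Idx k, c b = ⟨b.1, τ b.1 b.2⟩ := fun b => rfl
  unfold cyc
  rw [Finsupp.mapDomain_finsetSum, Finsupp.mapDomain_finsetSum]
  simp only [Finsupp.mapDomain_single]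
  refine Finset.sum_bij (fun T _ => (T.map c.symm.toEmbedding).map (incl J)) ?_ ?_ ?_ ?_
  · intro T _
    rw [Finset.mem_powerset, range_eq]
    exact Finset.map_subset_map.mpr (Finset.subset_univ _)
  · intro T _ T' _ hTT
    exact Finset.map_injective _ (Finset.map_injective _ hTT)
  · intro T hT
    rw [Finset.mem_powerset, range_eq, Finset.subset_map_iff] at hT
    obtain ⟨U, -, rfl⟩ := hT
    refine ⟨U.map c.toEmbedding, Finset.mem_powerset.2 (Finset.subset_univ _), ?_⟩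
    congr 1
    have hcc : c.toEmbedding.trans c.symm.toEmbedding = Function.Embedding.refl _ :=
      Function.Embedding.ext fun b => c.symm_apply_apply b
    rw [Finset.map_map, hcc, Finset.map_refl]
  · intro T _
    rw [Finset.card_map, Finset.card_map]
    congr 1
    funext j
    by_cases hj : ∃ b, J j.1 b = j.2
    · obtain ⟨s, j'⟩ := j
      have hj' : ∃ b : Fin (k s), J s b = j' := hj
      clear hj
      obtain ⟨b', rfl⟩ := hj'
      have h0 := emb_app_mem he o J (symAct act τ g fun i : Idx k =>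
        if i ∈ T then y ⟨i.1, I i.1 i.2⟩ else x ⟨i.1, I i.1 i.2⟩) ⟨s, b'⟩
      dsimp only at h0
      rw [h0]
      have h1 : ((⟨s, J s b'⟩ : Idx m') ∈ (T.map c.symm.toEmbedding).map (incl J)) ↔
          c ⟨s, b'⟩ ∈ T := by
        constructor
        · intro hm
          obtain ⟨q, hq, hq'⟩ := Finset.mem_map.1 hm
          obtain ⟨r, hr, hr'⟩ := Finset.mem_map.1 hq
          have h3 : q = ⟨s, b'⟩ := (incl J).injective hq'
          rw [h3] at hr'
          have h4 : c.symm r = ⟨s, b'⟩ := hr'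
          rw [← h4, Equiv.apply_symm_apply]
          exact hr
        · intro hm
          refine Finset.mem_map.2 ⟨⟨s, b'⟩, Finset.mem_map.2 ⟨c ⟨s, b'⟩, hm, ?_⟩, rfl⟩
          exact c.symm_apply_apply _
      have h2 : (⟨s, J s b'⟩ : Idx m') ∈ range J := (mem_range' J s _).2 ⟨b', rfl⟩
      rw [if_pos h2, if_pos h2]
      unfold symAct Mor.app
      rw [h ⟨s, b'⟩]
      by_cases hb : c ⟨s, b'⟩ ∈ T
      · rw [if_pos (h1.mpr hb)]
        rw [hc] at hb
        simp only [if_pos hb, Comp.app]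
      · rw [if_neg (fun h3 => hb (h1.mp h3))]
        rw [hc] at hb
        simp only [if_neg hb, Comp.app]
    · rw [emb_app_notMem _ _ _ _ hj]
      have h2 : j ∉ range J := by
        intro h3
        exact hj ((mem_range' J j.1 j.2).1 h3)
      rw [if_neg h2, if_neg h2, ite_self]

end Pool.Agent.BBM
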