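import Pool.Agent.BBM.Filt
import Pool.Agent.BBM.MapCyc
import Pool.Agent.BBM.CycBase
import Pool.Agent.BBM.Induce

/-!
# Conditions 3 and 4 for the filtration
-/

set_option autoImplicit false

noncomputable section

namespace Pool.Agent.BBM

universe u v w

variable {S : Type} [Fintype S] [DecidableEq S] {P : S → Type u} {G : S → Type v}
  {m m' : S → ℕ} {R : Type w} [Field R] {rat : ∀ m : S → ℕ, Submodule R (Pts P m →₀ R)}

/-! ### Types of the factors -/

/-- the numbers of the factors of type `s` in `K` -/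
private def grSec (K : Finset (Idx m)) (s : S) : Finset (Fin (m s)) :=
  Finset.univ.filter fun j : Fin (m s) => (⟨s, j⟩ : Idx m) ∈ K

omit [Fintype S] in
private lemma mem_grSec {K : Finset (Idx m)} {s : S} {j : Fin (m s)} :
    j ∈ grSec K s ↔ (⟨s, j⟩ : Idx m) ∈ K := by
  simp [grSec]

private lemma grSec_sigma (K : Finset (Idx m)) :
    K = (Finset.univ : Finset S).sigma (grSec K) := by
  ext ⟨s, j⟩
  simp [mem_grSec]

private lemma sum_grSec (n : S → ℕ) (K : Finset (Idx m)) :
    ∑ j ∈ K, n j.1 = ∑ s, n s * (grSec K s).card := by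
  conv_lhs => rw [grSec_sigma K]
  rw [Finset.sum_sigma]
  apply Finset.sum_congr rfl
  intro s _
  simp [mul_comm]

private lemma card_grSec (K : Finset (Idx m)) : K.card = ∑ s, (grSec K s).card := by
  conv_lhs => rw [grSec_sigma K]
  rw [Finset.card_sigma]

omit [Fintype S] in
private lemma grSec_le_of_onto {f : Mor P G m m'} {K : Finset (Idx m')} {I : Finset (Idx m)}
    (h : Onto f K I) (s : S) : (grSec I s).card ≤ (grSec K s).card := by
  classical
  have h1 : (grSec I s).map Function.Embedding.some ⊆
      (grSec K s).image fun j => (f ⟨s, j⟩).src := by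
    intro i hi
    rw [Finset.mem_map] at hi
    obtain ⟨i, hi, rfl⟩ := hi
    obtain ⟨j, hj, h2⟩ := h.2 ⟨s, i⟩ (mem_grSec.1 hi)
    rw [Finset.mem_image]
    exact ⟨j, mem_grSec.2 hj, h2⟩
  calc (grSec I s).card = ((grSec I s).map Function.Embedding.some).card :=
        (Finset.card_map _).symm
    _ ≤ ((grSec K s).image fun j => (f ⟨s, j⟩).src).card := Finset.card_le_card h1
    _ ≤ (grSec K s).card := Finset.card_image_le

private lemma mem_range_iff {k : S → ℕ} {I : ∀ s, Fin (k s) ↪o Fin (m s)} {i : Idx m} :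
    i ∈ range I ↔ ∃ b, I i.1 b = i.2 := by
  obtain ⟨s, j⟩ := i
  unfold range
  rw [Finset.mem_image]
  constructor
  · rintro ⟨⟨t, b⟩, -, hb⟩
    injection hb with h1 h2
    subst h1
    exact ⟨b, eq_of_heq h2⟩
  · rintro ⟨b, hb⟩
    refine ⟨⟨s, b⟩, Finset.mem_univ _, ?_⟩
    simp only at hb ⊢
    rw [hb]

private lemma grSec_range {k : S → ℕ} (I : ∀ s, Fin (k s) ↪o Fin (m s)) (s : S) :
    grSec (range I) s = Finset.univ.map (I s).toEmbedding := by
  ext j
  rw [mem_grSec, mem_range_iff, Finset.mem_map]
  simp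

private lemma card_grSec_range {k : S → ℕ} (I : ∀ s, Fin (k s) ↪o Fin (m s)) (s : S) :
    (grSec (range I) s).card = k s := by
  rw [grSec_range, Finset.card_map, Finset.card_univ, Fintype.card_fin]

private lemma range_injective {k : S → ℕ} :
    Function.Injective (range : (∀ s, Fin (k s) ↪o Fin (m s)) → Finset (Idx m)) := by
  intro I I' h
  funext s
  apply OrderEmbedding.range_inj.1
  ext j
  have h1 : j ∈ grSec (range I) s ↔ j ∈ grSec (range I') s := by rw [h]
  rw [grSec_range, grSec_range] at h1
  simpa using h1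

private lemma exists_range {k : S → ℕ} (K : Finset (Idx m)) (hK : ∀ s, (grSec K s).card = k s) :
    ∃ J : ∀ s, Fin (k s) ↪o Fin (m s), range J = K := by
  refine ⟨fun s => (grSec K s).orderEmbOfFin (hK s), ?_⟩
  have h1 : ∀ s, grSec (range fun s => (grSec K s).orderEmbOfFin (hK s)) s = grSec K s := by
    intro s
    rw [grSec_range]
    exact Finset.map_orderEmbOfFin_univ _ _
  ext ⟨s, j⟩
  rw [← mem_grSec, ← mem_grSec, h1 s]

/-! ### The action of the correspondences -/

omit [Fintype S] [DecidableEq S] in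
private lemma pushM_apply (act : ∀ s, G s → P s → P s) (γ : Mor P G m m' →₀ R)
    (z : Pts P m →₀ R) :
    pushM act γ z = ∑ f ∈ γ.support, γ f • z.mapDomain (f.app act) := by
  unfold pushM
  rw [Finsupp.sum, LinearMap.sum_apply]
  rfl

private lemma Fil_anti' (n : S → ℕ) {ν ν' : ℕ} (h : ν ≤ ν') :
    Fil rat n m ν' ≤ Fil rat n m ν := by
  induction ν', h using Nat.le_induction with
  | base => exact le_rfl
  | succ k _ ih => exact (Fil_anti n k).trans ih

/-- condition 3 -/
theorem map_pushM_le {act : ∀ s, G s → P s → P s} (n : S → ℕ) (ν : ℕ)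
    (hrat : ∀ f : Mor P G m m', (rat m).map (Finsupp.lmapDomain R R (f.app act)) ≤ rat m')
    (γ : Mor P G m m' →₀ R) : (Fil rat n m ν).map (pushM act γ) ≤ Fil rat n m' ν := by
  rw [Submodule.map_le_iff_le_comap]
  intro z hz
  rw [Submodule.mem_comap, pushM_apply]
  apply Submodule.sum_mem
  intro f _
  apply Submodule.smul_mem
  exact Fil_map act n ν f (hrat f) (Submodule.mem_map_of_mem hz)

/-- the images of the products of differences over `I` -/
private lemma key {act : ∀ s, G s → P s → P s} {e : ∀ s, G s}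
    (he : ∀ s p, act s (e s) p = p) (n : S → ℕ) (hn : ∀ s, 1 ≤ n s)
    (hrat : ∀ (m m' : S → ℕ) (f : Mor P G m m'),
      (rat m).map (Finsupp.lmapDomain R R (f.app act)) ≤ rat m')
    (γ : Mor P G m m' →₀ R) (k : S → ℕ) (I : ∀ s, Fin (k s) ↪o Fin (m s))
    (hγ : ∀ (J : ∀ s, Fin (k s) ↪o Fin (m' s)) (x y : Pts P k),
      (∑ f ∈ γ.support, γ f • inducedMap (R := R) act f I J x y) ∈ rat k)
    (x y : Pts P m) (o : ∀ s, P s) :
    pushM act γ (cyc R (range I) x y) ∈ Fil rat n m' (∑ s, n s * k s + 1) := by
  classical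
  have hI : ∀ {m : S → ℕ} (I : ∀ s, Fin (k s) ↪o Fin (m s)), (range I).card = ∑ s, k s := by
    intro m I
    rw [card_grSec]
    exact Finset.sum_congr rfl fun s _ => card_grSec_range I s
  have hI' : ∀ {m : S → ℕ} (I : ∀ s, Fin (k s) ↪o Fin (m s)),
      ∑ i ∈ range I, n i.1 = ∑ s, n s * k s := by
    intro m I
    rw [sum_grSec]
    exact Finset.sum_congr rfl fun s _ => by rw [card_grSec_range I s]
  -- the main term
  let M : (∀ s, Fin (k s) ↪o Fin (m' s)) → (Pts P m' →₀ R) := fun J =>
    (∑ f ∈ γ.support, γ f • inducedMap (R := R) act f I J (fun i : Idx k => x ⟨i.1, I i.1 i.2⟩)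
      (fun i : Idx k => y ⟨i.1, I i.1 i.2⟩)).mapDomain ((emb e o J).app act)
  have hM : ∀ J, M J ∈ Fil rat n m' (∑ s, n s * k s + 1) := by
    intro J
    apply rat_le_Fil
    exact hrat _ _ (emb e o J) (Submodule.mem_map_of_mem (hγ J _ _))
  have hM' : ∀ J, M J = ∑ f ∈ γ.support, γ f •
      (if (Onto f (range J) (range I)) then
        cyc R (range J) (fun j => if j ∈ range J then f.app act x j else o j.1)
          (fun j => if j ∈ range J then f.app act y j else o j.1) else 0) := by
    intro J
    change Finsupp.mapDomain _ _ = _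
    rw [Finsupp.mapDomain_finsetSum]
    apply Finset.sum_congr rfl
    intro f _
    rw [Finsupp.mapDomain_smul]
    unfold inducedMap
    by_cases h : ∃ g : (∀ s, Equiv.Perm (Fin (k s))) × (∀ i : Idx k, G i.1),
        Induces f I J g.1 g.2
    · rw [dif_pos h, if_pos (onto_of_induces h.choose_spec)]
      congr 1
      exact cyc_induces he h.choose_spec o x y
    · rw [dif_neg h, if_neg, Finsupp.mapDomain_zero]
      intro h'
      obtain ⟨τ, s, h2⟩ := exists_induces f I J h'
      exact h ⟨(τ, s), h2⟩
  -- the difference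
  have hsum : pushM act γ (cyc R (range I) x y) - ∑ J, M J ∈
      Fil rat n m' (∑ s, n s * k s + 1) := by
    rw [pushM_apply]
    simp only [hM']
    rw [Finset.sum_comm, ← Finset.sum_sub_distrib]
    apply Submodule.sum_mem
    intro f _
    rw [← Finset.smul_sum, ← smul_sub]
    apply Submodule.smul_mem
    rw [map_cyc, ← Finset.sum_filter_add_sum_filter_not _
      (fun K : Finset (Idx m') => ∀ s, (grSec K s).card = k s)]
    have h4 : ∑ K ∈ ((Finset.univ.filter fun K : Finset (Idx m') =>
        Onto f K (range I)).filter fun K => ¬ ∀ s, (grSec K s).card = k s),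
        ((-1 : R) ^ (K.card + (range I).card)) •
          cyc R K (f.app act x) (f.app act y) ∈ Fil rat n m' (∑ s, n s * k s + 1) := by
      apply Submodule.sum_mem
      intro K hK
      rw [Finset.mem_filter, Finset.mem_filter] at hK
      apply Submodule.smul_mem
      apply cyc_mem
      rw [sum_grSec]
      have h5 : ∀ s, k s ≤ (grSec K s).card := by
        intro s
        have := grSec_le_of_onto hK.1.2 s
        rwa [card_grSec_range] at this
      have h6 : ∃ s, (grSec K s).card ≠ k s := by
        by_contra hcon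
        apply hK.2
        intro s
        by_contra hs
        exact hcon ⟨s, hs⟩
      obtain ⟨s, hs⟩ := h6
      apply Nat.succ_le_of_lt
      apply Finset.sum_lt_sum
      · intro t _
        exact Nat.mul_le_mul_left _ (h5 t)
      · refine ⟨s, Finset.mem_univ _, ?_⟩
        exact Nat.mul_lt_mul_of_pos_left (lt_of_le_of_ne (h5 s) (Ne.symm hs)) (hn s)
    have h7 : ∑ K ∈ ((Finset.univ.filter fun K : Finset (Idx m') =>
        Onto f K (range I)).filter fun K => ∀ s, (grSec K s).card = k s),
        ((-1 : R) ^ (K.card + (range I).card)) •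
          cyc R K (f.app act x) (f.app act y) =
        ∑ J : (∀ s, Fin (k s) ↪o Fin (m' s)), (if (Onto f (range J) (range I)) then
          cyc R (range J) (f.app act x) (f.app act y) else 0) := by
      rw [← Finset.sum_filter]
      symm
      apply Finset.sum_bij (fun (J : ∀ s, Fin (k s) ↪o Fin (m' s)) _ => range J)
      · intro J hJ
        rw [Finset.mem_filter] at hJ
        rw [Finset.mem_filter, Finset.mem_filter]
        exact ⟨⟨Finset.mem_univ _, hJ.2⟩, card_grSec_range J⟩
      · intro J _ J' _ h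
        exact range_injective h
      · intro K hK
        rw [Finset.mem_filter, Finset.mem_filter] at hK
        obtain ⟨J, rfl⟩ := exists_range K hK.2
        refine ⟨J, ?_, rfl⟩
        rw [Finset.mem_filter]
        exact ⟨Finset.mem_univ _, hK.1.2⟩
      · intro J _
        rw [hI, hI, ← two_mul, pow_mul]
        simp
    rw [h7, add_sub_right_comm, ← Finset.sum_sub_distrib]
    apply Submodule.add_mem _ _ h4
    apply Submodule.sum_mem
    intro J _
    by_cases h : Onto f (range J) (range I)
    · rw [if_pos h, if_pos h]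
      have h8 := cyc_base (rat := rat) n hn (range J) (f.app act x) (f.app act y)
        (fun j => if j ∈ range J then f.app act x j else o j.1)
        (fun j => if j ∈ range J then f.app act y j else o j.1)
        (fun j hj => by simp only [hj, if_true, and_self])
      rwa [hI'] at h8
    · rw [if_neg h, if_neg h, sub_zero]
      exact Submodule.zero_mem _
  have := Submodule.add_mem _ hsum (Submodule.sum_mem _ fun J (_ : J ∈ Finset.univ) => hM J)
  simpa using this

/-- condition 4 -/
theorem Fil_grad {act : ∀ s, G s → P s → P s} {e : ∀ s, G s} (he : ∀ s p, act s (e s) p = p)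
    [∀ s, Nonempty (P s)] (n : S → ℕ) (hn : ∀ s, 1 ≤ n s)
    (hrat : ∀ (m m' : S → ℕ) (f : Mor P G m m'),
      (rat m).map (Finsupp.lmapDomain R R (f.app act)) ≤ rat m')
    (hdeg : ∀ (m : S → ℕ), ∀ z ∈ rat m, (z.sum fun _ c => c) = 0)
    (γ : Mor P G m m' →₀ R) (ν : ℕ) (h0 : ν = 0 → (γ.sum fun _ c => c) = 0)
    (hγ : ∀ k : S → ℕ, k ≠ 0 → ν = ∑ s, n s * k s → ∀ (I : ∀ s, Fin (k s) ↪o Fin (m s))
      (J : ∀ s, Fin (k s) ↪o Fin (m' s)) (x y : Pts P k),
        (∑ f ∈ γ.support, γ f • inducedMap (R := R) act f I J x y) ∈ rat k) :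
    (Fil rat n m ν).map (pushM act γ) ≤ Fil rat n m' (ν + 1) := by
  classical
  have o : ∀ s, P s := fun s => Classical.arbitrary _
  rw [Submodule.map_le_iff_le_comap]
  conv_lhs => unfold Fil
  rw [sup_le_iff]
  constructor
  swap
  · intro z hz
    rw [Submodule.mem_comap, pushM_apply]
    apply Submodule.sum_mem
    intro f _
    apply Submodule.smul_mem
    apply rat_le_Fil
    exact hrat _ _ f (Submodule.mem_map_of_mem hz)
  rw [Submodule.span_le]
  rintro z ⟨I, x, y, hI, rfl⟩
  rw [SetLike.mem_coe, Submodule.mem_comap]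
  by_cases hlt : ν + 1 ≤ ∑ i ∈ I, n i.1
  · apply map_pushM_le (act := act) n (ν + 1) (hrat m m') γ
    exact Submodule.mem_map_of_mem (cyc_mem n (ν + 1) hlt)
  have hν : ν = ∑ i ∈ I, n i.1 := by omega
  rcases I.eq_empty_or_nonempty with hIe | ⟨i, hi⟩
  · -- `I` is empty
    subst hIe
    rw [Finset.sum_empty] at hν
    have hc := h0 hν
    subst hν
    rw [Fil_one n hn (hdeg m')]
    have h6 : pushM act γ (cyc R ∅ x y) =
        ∑ f ∈ γ.support, Finsupp.single (f.app act x) (γ f) := by
      rw [pushM_apply]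
      apply Finset.sum_congr rfl
      intro f _
      rw [cyc_empty, Finsupp.mapDomain_single, Finsupp.smul_single, smul_eq_mul, mul_one]
    rw [h6, ← Finsupp.sum_finsetSum_index (fun _ => rfl) (fun _ _ _ => rfl), ← hc]
    apply Finset.sum_congr rfl
    intro f _
    rw [Finsupp.sum_single_index rfl]
  · rw [sum_grSec] at hν
    obtain ⟨J, hJ⟩ := exists_range (k := fun s => (grSec I s).card) I fun s => rfl
    have hk : (fun s => (grSec I s).card) ≠ 0 := by
      intro h
      have h1 : (grSec I i.1).card = 0 := congrFun h i.1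
      rw [Finset.card_eq_zero] at h1
      have h2 : i.2 ∈ grSec I i.1 := mem_grSec.2 hi
      rw [h1] at h2
      exact absurd h2 (Finset.notMem_empty _)
    have h1 := key he n hn hrat γ (fun s => (grSec I s).card) J
      (fun J' x y => hγ _ hk hν J J' x y) x y o
    rw [hJ, ← hν] at h1
    exact h1

end Pool.Agent.BBM
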