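import Mathlib

/-!
# Filtrations on the zero-cycles on the products of the varieties of a family

`P s` is the set of points of a variety `Y s`, `s ∈ S`, and `G s` is a set of automorphisms of `Y s`,
given by their action `act` on `P s`. For `m : S → ℕ` let `Y ^ m` be the product of the powers
`(Y s) ^ (m s)`. We consider the morphisms `Y ^ m → Y ^ m'` all of whose components are constant or
a factor followed by an element of `G s`, and filtrations on the zero-cycles on all `Y ^ m`.
-/

set_option autoImplicit false

noncomputable section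

namespace Pool.Agent.BBM

universe u v w

variable {S : Type}

/-- The factors of `Y ^ m`: `⟨s, i⟩` is the factor with number `i` of `(Y s) ^ (m s)`. -/
abbrev Idx (m : S → ℕ) : Type := Σ s, Fin (m s)

/-- The points of `Y ^ m`. -/
abbrev Pts (P : S → Type u) (m : S → ℕ) : Type u := ∀ i : Idx m, P i.1

/-- A morphism from `Y ^ m` to `Y s`: a constant, or the factor with number `i` of `(Y s) ^ (m s)`
followed by the automorphism `g`. -/
inductive Comp (P : S → Type u) (G : S → Type v) (m : S → ℕ) (s : S) : Type (max u v)
  | const (p : P s) : Comp P G m s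
  | fac (i : Fin (m s)) (g : G s) : Comp P G m s

/-- The morphisms from `Y ^ m` to `Y ^ m'`: projections, diagonals, constants, elements of `G` and
everything composed from them. -/
abbrev Mor (P : S → Type u) (G : S → Type v) (m m' : S → ℕ) : Type (max u v) :=
  ∀ j : Idx m', Comp P G m j.1

variable {P : S → Type u} {G : S → Type v} {m m' : S → ℕ} {R : Type w} [Field R]

/-- The value of the component at a point. -/
def Comp.app (act : ∀ s, G s → P s → P s) {s : S} (f : Comp P G m s) (x : Pts P m) : P s :=
  match f with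
  | .const p => p
  | .fac i g => act s g (x ⟨s, i⟩)

/-- The value of the morphism at a point. -/
def Mor.app (act : ∀ s, G s → P s → P s) (f : Mor P G m m') (x : Pts P m) : Pts P m' :=
  fun j => (f j).app act x

/-- The push-forward of zero-cycles by a combination of morphisms (a correspondence). -/
def pushM (act : ∀ s, G s → P s → P s) (γ : Mor P G m m' →₀ R) :
    (Pts P m →₀ R) →ₗ[R] (Pts P m' →₀ R) :=
  γ.sum fun f c => c • Finsupp.lmapDomain R R (f.app act)

/-- The product of the differences `[x i] - [y i]` for `i ∈ I` and of the points `x i` for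
`i ∉ I`. -/
def cyc [DecidableEq S] (R : Type w) [Field R] (I : Finset (Idx m)) (x y : Pts P m) :
    Pts P m →₀ R :=
  ∑ T ∈ I.powerset, Finsupp.single (fun i => if i ∈ T then y i else x i) ((-1) ^ T.card)

/-- The filtration on the zero-cycles on `Y ^ m`, where `Y s` is of dimension `n s` and `rat m` is
the space of zero-cycles on `Y ^ m` which are rationally equivalent to zero: `F^ν` is generated by
the products of zero-cycles on the factors (differences of points and points) such that the sum of
the dimensions of the factors on which they have degree zero is at least `ν`. -/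
def Fil [DecidableEq S] (rat : ∀ m : S → ℕ, Submodule R (Pts P m →₀ R)) (n m : S → ℕ) (ν : ℕ) :
    Submodule R (Pts P m →₀ R) :=
  Submodule.span R {z | ∃ (I : Finset (Idx m)) (x y : Pts P m), ν ≤ ∑ i ∈ I, n i.1 ∧
    z = cyc R I x y} ⊔ rat m

/-- `I s` and `J s` are increasing sequences of `k s` factors of `(Y s) ^ (m s)` and of
`(Y s) ^ (m' s)`. The component `J s b` of `f` is the automorphism `g ⟨s, b⟩` of the factor
`I s (τ s b)`, for all `s` and `b`; so `f` induces an isomorphism from `Y ^ k` (the factors `I`) to
`Y ^ k` (the factors `J`). -/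
def Induces (f : Mor P G m m') {k : S → ℕ} (I : ∀ s, Fin (k s) ↪o Fin (m s))
    (J : ∀ s, Fin (k s) ↪o Fin (m' s)) (τ : ∀ s, Equiv.Perm (Fin (k s)))
    (g : ∀ i : Idx k, G i.1) : Prop :=
  ∀ i : Idx k, f ⟨i.1, J i.1 i.2⟩ = Comp.fac (I i.1 (τ i.1 i.2)) (g i)

/-- the number of the factor of a non-constant component -/
def Comp.src {s : S} : Comp P G m s → Option (Fin (m s))
  | .const _ => none
  | .fac i _ => some i

/-- `f` maps `K` onto `I` -/
def Onto (f : Mor P G m m') (K : Finset (Idx m')) (I : Finset (Idx m)) : Prop :=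
  (∀ j ∈ K, ∃ i : Fin (m j.1), ⟨j.1, i⟩ ∈ I ∧ (f j).src = some i) ∧
    ∀ i ∈ I, ∃ j : Fin (m' i.1), ⟨i.1, j⟩ ∈ K ∧ (f ⟨i.1, j⟩).src = some i.2

/-- the set of factors given by increasing sequences -/
def range [Fintype S] [DecidableEq S] {k : S → ℕ} (I : ∀ s, Fin (k s) ↪o Fin (m s)) :
    Finset (Idx m) :=
  Finset.univ.image fun i : Idx k => (⟨i.1, I i.1 i.2⟩ : Idx m)

/-- the morphism `Y ^ k → Y ^ m'`, the factors `J`, with the constant `o` elsewhere -/
def emb (e : ∀ s, G s) (o : ∀ s, P s) {k : S → ℕ} (J : ∀ s, Fin (k s) ↪o Fin (m' s)) :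
    Mor P G k m' := by
  classical
  exact fun j => if h : ∃ b, J j.1 b = j.2 then Comp.fac h.choose (e j.1) else Comp.const (o j.1)

/-- the automorphism of `Y ^ k` -/
def symAct (act : ∀ s, G s → P s → P s) {k : S → ℕ} (τ : ∀ s, Equiv.Perm (Fin (k s)))
    (g : ∀ i : Idx k, G i.1) (x : Pts P k) : Pts P k :=
  fun i => act i.1 (g i) (x ⟨i.1, τ i.1 i.2⟩)

/-- the image of the product of the differences `[x i] - [y i]` under the automorphism of `Y ^ k`
induced by `f` (zero if there is none) -/
def inducedMap [Fintype S] [DecidableEq S] (act : ∀ s, G s → P s → P s) (f : Mor P G m m')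
    {k : S → ℕ} (I : ∀ s, Fin (k s) ↪o Fin (m s)) (J : ∀ s, Fin (k s) ↪o Fin (m' s))
    (x y : Pts P k) : Pts P k →₀ R := by
  classical
  exact if h : ∃ g : (∀ s, Equiv.Perm (Fin (k s))) × (∀ i : Idx k, G i.1), Induces f I J g.1 g.2
    then (cyc R Finset.univ x y).mapDomain (symAct act h.choose.1 h.choose.2) else 0

end Pool.Agent.BBM
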