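import Pool.Agent.BBM.Defs

/-!
# The filtration: first properties
-/

set_option autoImplicit false

noncomputable section

namespace Pool.Agent.BBM

universe u v w

variable {S : Type} [Fintype S] [DecidableEq S] {P : S → Type u} {G : S → Type v}
  {m m' : S → ℕ} {R : Type w} [Field R] {rat : ∀ m : S → ℕ, Submodule R (Pts P m →₀ R)}

theorem rat_le_Fil (n : S → ℕ) (ν : ℕ) : rat m ≤ Fil rat n m ν := le_sup_right

theorem Fil_anti (n : S → ℕ) (ν : ℕ) : Fil rat n m (ν + 1) ≤ Fil rat n m ν := by
  apply sup_le_sup_right
  apply Submodule.span_mono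
  rintro z ⟨I, x, y, hI, rfl⟩
  exact ⟨I, x, y, by omega, rfl⟩

theorem cyc_mem (n : S → ℕ) (ν : ℕ) {I : Finset (Idx m)} {x y : Pts P m}
    (h : ν ≤ ∑ i ∈ I, n i.1) : cyc R I x y ∈ Fil rat n m ν :=
  Submodule.mem_sup_left (Submodule.subset_span ⟨I, x, y, h, rfl⟩)

theorem cyc_empty (x y : Pts P m) : cyc R ∅ x y = Finsupp.single x 1 := by
  unfold cyc
  simp

theorem Fil_zero (n : S → ℕ) : Fil rat n m 0 = ⊤ := by
  rw [eq_top_iff]
  intro z _
  rw [← Finsupp.sum_single z]
  apply Submodule.sum_mem
  intro p hp
  have h1 : (Finsupp.single p (z p) : Pts P m →₀ R) = z p • cyc R ∅ p p := by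
    rw [cyc_empty, Finsupp.smul_single, smul_eq_mul, mul_one]
  rw [h1]
  exact Submodule.smul_mem _ _ (cyc_mem n 0 (Nat.zero_le _))

/-- the degree of a zero-cycle -/
private def degL : (Pts P m →₀ R) →ₗ[R] R := Finsupp.linearCombination R fun _ => (1 : R)

private theorem degL_eq (z : Pts P m →₀ R) : degL z = z.sum fun _ c => c := by
  unfold degL
  rw [Finsupp.linearCombination_apply]
  simp

private theorem degL_cyc {I : Finset (Idx m)} (hI : I.Nonempty) (x y : Pts P m) :
    degL (cyc R I x y) = 0 := by
  unfold cyc
  rw [map_sum]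
  have h1 : ∀ T ∈ I.powerset, degL (Finsupp.single (fun i => if i ∈ T then y i else x i)
      ((-1 : R) ^ T.card)) = (((-1 : ℤ) ^ T.card : ℤ) : R) := by
    intro T _
    unfold degL
    rw [Finsupp.linearCombination_single]
    simp
  rw [Finset.sum_congr rfl h1, ← Int.cast_sum, Finset.sum_powerset_neg_one_pow_card_of_nonempty hI]
  simp

/-- a point can be changed to another one -/
private theorem single_sub_mem (n : S → ℕ) (hn : ∀ s, 1 ≤ n s) (x y : Pts P m) :
    (Finsupp.single x 1 - Finsupp.single y 1 : Pts P m →₀ R) ∈ Fil rat n m 1 := by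
  have h1 : ∀ T : Finset (Idx m), (Finsupp.single x 1 -
      Finsupp.single (fun i : Idx m => if i ∈ T then y i else x i) 1 :
        Pts P m →₀ R) ∈ Fil rat n m 1 := by
    intro T
    induction T using Finset.induction_on with
    | empty => simp
    | insert k T hk ih =>
      set w : Pts P m := fun i : Idx m => if i ∈ T then y i else x i with hw
      have h3 : cyc R {k} w y = (Finsupp.single w 1 -
          Finsupp.single (fun i : Idx m => if i ∈ insert k T then y i else x i) 1 :
            Pts P m →₀ R) := by
        unfold cyc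
        have h4 : (({k} : Finset (Idx m)).powerset) = {∅, {k}} := by
          ext T'
          rw [Finset.mem_powerset, Finset.subset_singleton_iff, Finset.mem_insert,
            Finset.mem_singleton]
        rw [h4, Finset.sum_pair (Finset.singleton_ne_empty _).symm]
        simp only [Finset.notMem_empty, if_false, Finset.card_empty, pow_zero,
          Finset.card_singleton, pow_one, Finset.mem_singleton]
        have h5 : (fun i : Idx m => if i = k then y i else w i) =
            fun i : Idx m => if i ∈ insert k T then y i else x i := by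
          funext i
          rw [hw]
          by_cases hi : i = k
          · subst hi
            simp
          · simp [hi]
        rw [h5, Finsupp.single_neg, ← sub_eq_add_neg]
      have h6 : cyc R {k} w y ∈ Fil rat n m 1 :=
        cyc_mem n 1 (by rw [Finset.sum_singleton]; exact hn _)
      rw [h3] at h6
      have h7 := Submodule.add_mem _ ih h6
      rwa [sub_add_sub_cancel] at h7
  have h8 := h1 Finset.univ
  simpa using h8

theorem Fil_one (n : S → ℕ) (hn : ∀ s, 1 ≤ n s)
    (hdeg : ∀ z ∈ rat m, (z.sum fun _ c => c) = 0) (z : Pts P m →₀ R) :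
    z ∈ Fil rat n m 1 ↔ (z.sum fun _ c => c) = 0 := by
  constructor
  · intro hz
    rw [← degL_eq]
    have h1 : Fil rat n m 1 ≤ LinearMap.ker (degL (R := R) (P := P) (m := m)) := by
      apply sup_le
      · rw [Submodule.span_le]
        rintro w ⟨I, x, y, hI, rfl⟩
        rw [SetLike.mem_coe, LinearMap.mem_ker]
        apply degL_cyc
        rw [Finset.nonempty_iff_ne_empty]
        rintro rfl
        simp at hI
      · intro w hw
        rw [LinearMap.mem_ker, degL_eq]
        exact hdeg w hw
    exact LinearMap.mem_ker.1 (h1 hz)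
  · rintro hdeg
    by_cases h0 : z.support = ∅
    · rw [Finsupp.support_eq_empty] at h0
      rw [h0]
      exact Submodule.zero_mem _
    · obtain ⟨p₀, hp₀⟩ := Finset.nonempty_iff_ne_empty.2 h0
      have h1 : z = ∑ p ∈ z.support, z p • (Finsupp.single p 1 - Finsupp.single p₀ 1 :
          Pts P m →₀ R) := by
        have h2 : ∀ p ∈ z.support, z p • (Finsupp.single p 1 - Finsupp.single p₀ 1 :
            Pts P m →₀ R) = Finsupp.single p (z p) - z p • Finsupp.single p₀ 1 := by
          intro p _
          rw [smul_sub, Finsupp.smul_single, smul_eq_mul, mul_one]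
        rw [Finset.sum_congr rfl h2, Finset.sum_sub_distrib, ← Finset.sum_smul]
        have h3 : ∑ p ∈ z.support, z p = 0 := hdeg
        rw [h3, zero_smul, sub_zero]
        exact (Finsupp.sum_single z).symm
      rw [h1]
      apply Submodule.sum_mem
      intro p hp
      exact Submodule.smul_mem _ _ (single_sub_mem n hn p p₀)

theorem Fil_top (n : S → ℕ) : Fil rat n m (∑ s, n s * m s + 1) = rat m := by
  apply le_antisymm _ (rat_le_Fil n _)
  apply sup_le _ le_rfl
  rw [Submodule.span_le]
  rintro z ⟨I, x, y, hI, rfl⟩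
  exfalso
  have h1 : ∑ i ∈ I, n i.1 ≤ ∑ i : Idx m, n i.1 :=
    Finset.sum_le_sum_of_subset (Finset.subset_univ I)
  have h2 : ∑ i : Idx m, n i.1 = ∑ s, n s * m s := by
    rw [Fintype.sum_sigma]
    refine Finset.sum_congr rfl fun s _ => ?_
    simp [mul_comm]
  omega

end Pool.Agent.BBM
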